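import Pool.Agent.W201.NT.StmT

/-!
NT-HI: homotopy invariance
-/

set_option autoImplicit false

open CategoryTheory AlgebraicTopology

namespace Pool.Agent.W672.NT

open Pool.Agent.W201.NT

theorem van_iff (hBR : S_BR) (X : Type) [TopologicalSpace X] (n : ℕ) :
    Van X n ↔ Subsingleton (MH ℤ X n) := by
  have e := (hBR ℤ X n).some
  rw [← e.toEquiv.subsingleton_congr, Submodule.Quotient.subsingleton_iff,
    Submodule.comap_subtype_eq_top]
  rfl

theorem main : S_BR → S_HI := by
  intro hBR X Y _ _ f g hfg n hX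
  rw [van_iff hBR] at hX ⊢
  obtain ⟨H⟩ := hfg
  let F : TopCat.{0} ⥤ ModuleCat.{0} ℤ :=
    (singularHomologyFunctor (ModuleCat.{0} ℤ) n).obj (ModuleCat.of ℤ ℤ)
  let f' : TopCat.of X ⟶ TopCat.of Y := TopCat.ofHom f
  let g' : TopCat.of Y ⟶ TopCat.of X := TopCat.ofHom g
  have h : F.map (g' ≫ f') = F.map (𝟙 (TopCat.of Y)) :=
    TopCat.Homotopy.congr_homologyMap_singularChainComplexFunctor (f := g' ≫ f')
      (g := 𝟙 (TopCat.of Y)) H (ModuleCat.of ℤ ℤ) n
  rw [F.map_comp, F.map_id] at h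
  have key : ∀ a : F.obj (TopCat.of Y), (F.map f').hom ((F.map g').hom a) = a := by
    intro a
    have h2 := congrArg (fun φ => ModuleCat.Hom.hom φ a) h
    exact h2
  constructor
  intro a b
  have h3 : (F.map g').hom a = (F.map g').hom b := hX.elim _ _
  have h4 := key a
  have h5 := key b
  rw [h3] at h4
  exact h4.symm.trans h5

end Pool.Agent.W672.NT
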